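import Pool.Agent.H620.Morph.Word

/-! A morphic set whose boundary has density zero has at most `C N / log N` boundary points up to `N`. -/

set_option autoImplicit false

namespace Pool.Agent.H620.Morph

open Finset Filter Topology

/-- `w` is morphic: the coding by `g` of the fixed point, which begins with the letter `a`, of the morphism `σ`
(without empty images) on a finite alphabet. -/
def IsMorphic (w : ℕ → Prop) : Prop :=
  ∃ (A : Type) (_ : Finite A) (σ : A → List A) (a : A) (g : A → Prop), (∀ b, σ b ≠ []) ∧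
    (∃ u, u ≠ [] ∧ σ a = a :: u) ∧ ∀ (k i : ℕ) (hi : i < ((sig σ)^[k] [a]).length), w i ↔ g ((sig σ)^[k] [a])[i]

theorem ch_mono (w : ℕ → Prop) {N N' : ℕ} (h : N ≤ N') : ch w N ≤ ch w N' := by
  unfold ch
  exact Finset.sum_le_sum_of_subset (Finset.range_subset_range.2 h)

theorem morphic_gap {w : ℕ → Prop} (hw : IsMorphic w)
    (ho : Tendsto (fun N : ℕ => (ch w N : ℝ) / N) atTop (𝓝 0)) :
    ∃ C : ℝ, 0 ≤ C ∧ ∀ᶠ N : ℕ in atTop, (ch w N : ℝ) ≤ C * (N / Real.log N) := by
  classical
  obtain ⟨A, hA, σ, a, g, hσ, ⟨u, hu, hau⟩, hw⟩ := hw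
  have := Fintype.ofFinite A
  -- the lengths
  set f : ℕ → ℕ := fun k => ((sig σ)^[k] [a]).length with hf
  have hf0 : f 0 = 1 := rfl
  obtain ⟨c, u', rfl⟩ : ∃ c u', u = c :: u' := by
    cases u with
    | nil => exact absurd rfl hu
    | cons c u' => exact ⟨c, u', rfl⟩
  have hstep : ∀ k, (sig σ)^[k + 1] [a] = (sig σ)^[k] [a] ++ ((sig σ)^[k] [c] ++ (sig σ)^[k] u') := by
    intro k
    rw [Function.iterate_succ_apply]
    have : sig σ [a] = [a] ++ ([c] ++ u') := by simp [sig, hau]
    rw [this, iter_append, iter_append]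
  have hpos : ∀ k (b : A), 1 ≤ ((sig σ)^[k] [b]).length := by
    intro k b
    obtain ⟨W, hW⟩ := iter_head σ hσ k b
    rw [hW]; simp
  have hf1 : ∀ k, f k + 1 ≤ f (k + 1) := by
    intro k
    show _ ≤ ((sig σ)^[k + 1] [a]).length
    rw [hstep, List.length_append, List.length_append]
    have := hpos k c
    show ((sig σ)^[k] [a]).length + 1 ≤ _
    omega
  have hfk : ∀ k, k + 1 ≤ f k := by
    intro k
    induction k with
    | zero => exact le_of_eq hf0.symm
    | succ k ih => have := hf1 k; omega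
  have hfmono : StrictMono f := strictMono_nat_of_lt_succ fun k => by have := hf1 k; omega
  -- the growth is at most geometric
  set M : ℕ := 2 + ∑ b : A, (σ b).length with hM
  have hlen : ∀ W : List A, (sig σ W).length ≤ M * W.length := by
    intro W
    induction W with
    | nil => simp [sig]
    | cons b W ih =>
      have e : sig σ (b :: W) = σ b ++ sig σ W := by simp [sig]
      rw [e, List.length_append, List.length_cons]
      have h1 : (σ b).length ≤ ∑ b : A, (σ b).length :=
        Finset.single_le_sum (f := fun b : A => (σ b).length) (fun _ _ => Nat.zero_le _) (Finset.mem_univ b)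
      nlinarith
  have hfM : ∀ k, f (k + 1) ≤ M * f k := by
    intro k
    show ((sig σ)^[k + 1] [a]).length ≤ M * ((sig σ)^[k] [a]).length
    rw [Function.iterate_succ_apply']
    exact hlen _
  have hfpow : ∀ k, f k ≤ M ^ k := by
    intro k
    induction k with
    | zero => simp [hf0]
    | succ k ih =>
      calc f (k + 1) ≤ M * f k := hfM k
        _ ≤ M * M ^ k := Nat.mul_le_mul_left _ ih
        _ = M ^ (k + 1) := by ring
  -- the number of the changes
  set E : A × A → Bool := fun p => ! decide (g p.1 ↔ g p.2) with hE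
  have hg : ∀ k, ch w (f k) = ((sig (sig2 σ hσ))^[k] [(a, c)]).countP E := by
    intro k
    have e1 : [(a, c)] = pr c [a] := rfl
    rw [e1, iter_sig2]
    have h := countP_pr g ((fun b => (σ b).head (hσ b))^[k] c) ((sig σ)^[k] [a]) w 0 (fun i hi => by
      rw [zero_add]; exact hw k i hi) (by
      rw [zero_add]
      have hlt : ((sig σ)^[k] [a]).length < ((sig σ)^[k + 1] [a]).length := hf1 k
      rw [hw (k + 1) _ hlt]
      obtain ⟨W, hW⟩ := iter_head σ hσ k c
      have e2 : ((sig σ)^[k + 1] [a])[((sig σ)^[k] [a]).length] = (fun b => (σ b).head (hσ b))^[k] c := by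
        have e3 := hstep k
        rw [hW] at e3
        rw [List.getElem_of_eq e3]
        rw [List.getElem_append_right (le_refl _)]
        simp
      rw [e2])
    rw [hE, h]
    unfold ch
    simp only [zero_add]
    rfl
  have hfE : IsEP (fun k => ((f k : ℝ) : ℂ)) := by
    refine (isEP_iter σ (fun _ => 1) a).congr 0 fun k _ => ?_
    exact length_sum _
  have hgE : IsEP (fun k => ((ch w (f k) : ℝ) : ℂ)) := by
    refine (isEP_iter (sig2 σ hσ) (fun b => if E b then 1 else 0) (a, c)).congr 0 fun k _ => ?_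
    rw [hg k]
    exact countP_sum _ _
  have hftop : Tendsto f atTop atTop := hfmono.tendsto_atTop
  have hlim : Tendsto (fun k => (ch w (f k) : ℝ) / f k) atTop (𝓝 0) := ho.comp hftop
  obtain ⟨C, k₀, hC⟩ := gap (f := fun k => (f k : ℝ)) (g := fun k => (ch w (f k) : ℝ))
    (fun k => by have := hfk k; exact_mod_cast (by omega : 0 < f k)) (fun k => Nat.cast_nonneg _)
    (M := M) (by exact_mod_cast (by omega : 1 ≤ M)) (fun k => by exact_mod_cast hfM k) hfE hgE hlim
  have hMr : (1 : ℝ) < M := by exact_mod_cast (by omega : 1 < M)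
  have hM0 : (0 : ℝ) < M := by linarith
  have hlM : 0 < Real.log M := Real.log_pos hMr
  refine ⟨|C| * M * Real.log M, by positivity, ?_⟩
  filter_upwards [eventually_ge_atTop (max (f k₀) 3)] with N hN
  have hN1 : f k₀ ≤ N := (le_max_left _ _).trans hN
  have hN3 : 3 ≤ N := (le_max_right _ _).trans hN
  -- the block
  have hex : ∃ k, N < f k := ⟨N, by have := hfk N; omega⟩
  obtain ⟨k, hk1, hk2⟩ : ∃ k, f k ≤ N ∧ N < f (k + 1) := by
    have h1 := Nat.find_spec hex
    set k := Nat.find hex with hk
    have hk0 : k ≠ 0 := by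
      intro h
      rw [h, hf0] at h1
      omega
    obtain ⟨j, hj⟩ := Nat.exists_eq_succ_of_ne_zero hk0
    refine ⟨j, ?_, by rw [hj] at h1; exact h1⟩
    have := Nat.find_min hex (m := j) (by omega)
    omega
  have hkk : k₀ ≤ k + 1 := by
    by_contra hcon
    push Not at hcon
    have := hfmono.monotone (by omega : k + 1 ≤ k₀)
    omega
  have h1 := hC (k + 1) hkk
  have hNpos : (0 : ℝ) < N := by exact_mod_cast (by omega : 0 < N)
  have hlN : 0 < Real.log N := Real.log_pos (by exact_mod_cast (by omega : 1 < N))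
  have h2 : Real.log N ≤ (k + 1) * Real.log M := by
    have e1 : (N : ℝ) ≤ (M : ℝ) ^ (k + 1) := by
      have : N ≤ M ^ (k + 1) := hk2.le.trans (hfpow _)
      exact_mod_cast this
    have e2 := Real.log_le_log hNpos e1
    rw [Real.log_pow] at e2
    push_cast at e2
    exact e2
  have h3 : (ch w N : ℝ) ≤ ch w (f (k + 1)) := by exact_mod_cast ch_mono w hk2.le
  have h4 : (f (k + 1) : ℝ) ≤ M * N := by
    have : f (k + 1) ≤ M * N := (hfM k).trans (Nat.mul_le_mul_left _ hk1)
    exact_mod_cast this
  have hk0 : (0 : ℝ) < (k : ℝ) + 1 := by positivity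
  have h5 : ((k : ℝ) + 1) * ch w N ≤ |C| * (M * N) := by
    calc ((k : ℝ) + 1) * ch w N ≤ ((k : ℝ) + 1) * ch w (f (k + 1)) := by gcongr
      _ = ((k + 1 : ℕ) : ℝ) * ch w (f (k + 1)) := by push_cast; ring
      _ ≤ C * f (k + 1) := h1
      _ ≤ |C| * f (k + 1) := by gcongr; exact le_abs_self C
      _ ≤ |C| * (M * N) := by gcongr
  have hc0 : (0 : ℝ) ≤ ch w N := Nat.cast_nonneg _
  rw [mul_div_assoc', le_div_iff₀ hlN]
  calc (ch w N : ℝ) * Real.log N ≤ ch w N * ((k + 1) * Real.log M) := by gcongr
    _ = ((k : ℝ) + 1) * ch w N * Real.log M := by ring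
    _ ≤ |C| * (M * N) * Real.log M := by gcongr
    _ = |C| * M * Real.log M * N := by ring

end Pool.Agent.H620.Morph
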