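import Mathlib

/-! Exponential polynomials: the sequences `k ↦ u (T ^ k v)` for a linear map `T` of a finite dimensional complex
vector space. -/

set_option autoImplicit false

namespace Pool.Agent.H620.Morph

open Finset Filter Topology

/-- The exponential polynomial with given coefficients. -/
noncomputable def ep (c : (ℂ × ℕ) →₀ ℂ) (k : ℕ) : ℂ := c.sum fun p a => a * (k.choose p.2 : ℂ) * p.1 ^ k

/-- A sequence that is eventually an exponential polynomial. -/
def IsEP (s : ℕ → ℂ) : Prop :=
  ∃ c : (ℂ × ℕ) →₀ ℂ, (∀ p ∈ c.support, p.1 ≠ 0) ∧ ∃ k₀, ∀ k, k₀ ≤ k → s k = ep c k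

theorem ep_add (c c' : (ℂ × ℕ) →₀ ℂ) (k : ℕ) : ep (c + c') k = ep c k + ep c' k := by
  unfold ep
  rw [Finsupp.sum_add_index']
  · intro p; simp
  · intro p a b; ring

theorem IsEP.zero : IsEP (fun _ => 0) := ⟨0, by simp, 0, fun k _ => by simp [ep]⟩

theorem IsEP.single {l : ℂ} (hl : l ≠ 0) (j : ℕ) (a : ℂ) : IsEP (fun k => a * (k.choose j : ℂ) * l ^ k) := by
  classical
  refine ⟨Finsupp.single (l, j) a, ?_, 0, fun k _ => ?_⟩
  · intro p hp
    have := Finsupp.support_single_subset hp
    rw [Finset.mem_singleton] at this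
    rw [this]
    exact hl
  · unfold ep
    rw [Finsupp.sum_single_index (by simp)]

theorem IsEP.add {s s' : ℕ → ℂ} (h : IsEP s) (h' : IsEP s') : IsEP (fun k => s k + s' k) := by
  classical
  obtain ⟨c, hc, k₀, hk⟩ := h
  obtain ⟨c', hc', k₀', hk'⟩ := h'
  refine ⟨c + c', ?_, max k₀ k₀', fun k hkk => ?_⟩
  · intro p hp
    rcases Finset.mem_union.1 (Finsupp.support_add hp) with h | h
    · exact hc p h
    · exact hc' p h
  · show s k + s' k = _
    rw [ep_add, hk k ((le_max_left _ _).trans hkk), hk' k ((le_max_right _ _).trans hkk)]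

theorem IsEP.sum {ι : Type*} (F : Finset ι) (s : ι → ℕ → ℂ) (h : ∀ i ∈ F, IsEP (s i)) :
    IsEP (fun k => ∑ i ∈ F, s i k) := by
  classical
  induction F using Finset.induction_on with
  | empty => simpa using IsEP.zero
  | insert a F ha ih =>
    have h1 := (h a (Finset.mem_insert_self _ _)).add (ih fun i hi => h i (Finset.mem_insert_of_mem hi))
    have e : (fun k => ∑ i ∈ insert a F, s i k) = fun k => s a k + ∑ i ∈ F, s i k := by
      ext k
      rw [Finset.sum_insert ha]
    rw [e]
    exact h1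

theorem IsEP.congr {s s' : ℕ → ℂ} (h : IsEP s) (k₁ : ℕ) (he : ∀ k, k₁ ≤ k → s' k = s k) : IsEP s' := by
  obtain ⟨c, hc, k₀, hk⟩ := h
  exact ⟨c, hc, max k₀ k₁, fun k hkk => by
    rw [he k ((le_max_right _ _).trans hkk), hk k ((le_max_left _ _).trans hkk)]⟩

variable {V : Type*} [AddCommGroup V] [Module ℂ V]

theorem isEP_gen (T : Module.End ℂ V) (u : V →ₗ[ℂ] ℂ) (l : ℂ) (v : V) (n : ℕ)
    (hn : ((T - l • (1 : Module.End ℂ V)) ^ n) v = 0) : IsEP (fun k => u ((T ^ k) v)) := by
  set D := T - l • (1 : Module.End ℂ V) with hD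
  have hz : ∀ j, n ≤ j → (D ^ j) v = 0 := by
    intro j hj
    obtain ⟨i, rfl⟩ := Nat.exists_eq_add_of_le hj
    rw [add_comm, pow_add, Module.End.mul_apply, hn, map_zero]
  rcases eq_or_ne l 0 with rfl | hl
  · have : D = T := by rw [hD, zero_smul, sub_zero]
    rw [this] at hz
    refine IsEP.zero.congr n fun k hk => ?_
    rw [hz k hk, map_zero]
  · have hT : ∀ k, (T ^ k) v = ∑ j ∈ range (k + 1), ((k.choose j : ℂ) * l ^ (k - j)) • (D ^ j) v := by
      intro k
      have h1 : T = D + l • (1 : Module.End ℂ V) := by rw [hD]; abel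
      have hcomm : Commute D (l • (1 : Module.End ℂ V)) := by
        apply Commute.smul_right
        exact Commute.one_right D
      conv_lhs => rw [h1, hcomm.add_pow]
      rw [LinearMap.sum_apply]
      apply Finset.sum_congr rfl
      intro j _
      rw [smul_pow, one_pow, Module.End.mul_apply, Module.End.mul_apply]
      have : ((k.choose j : Module.End ℂ V)) v = (k.choose j : ℂ) • v := by
        rw [← nsmul_one, LinearMap.smul_apply, Module.End.one_apply, Nat.cast_smul_eq_nsmul]
      rw [this, map_smul, LinearMap.smul_apply, Module.End.one_apply, map_smul, map_smul, smul_smul]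
    have hE : IsEP (fun k => ∑ j ∈ range n, (u ((D ^ j) v) * (l⁻¹) ^ j) * (k.choose j : ℂ) * l ^ k) :=
      IsEP.sum _ _ fun j _ => IsEP.single hl j _
    refine hE.congr 0 fun k _ => ?_
    rw [hT k, map_sum]
    have h2 : ∑ j ∈ range (k + 1), u (((k.choose j : ℂ) * l ^ (k - j)) • (D ^ j) v) =
        ∑ j ∈ range (k + 1), (u ((D ^ j) v) * (l⁻¹) ^ j) * (k.choose j : ℂ) * l ^ k := by
      apply Finset.sum_congr rfl
      intro j hj
      rw [Finset.mem_range] at hj
      rw [map_smul, smul_eq_mul]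
      have h3 : l ^ k = l ^ (k - j) * l ^ j := by rw [← pow_add]; congr 1; omega
      rw [h3, inv_pow]
      have h4 : l ^ j ≠ 0 := pow_ne_zero _ hl
      field_simp
    rw [h2]
    -- both sums are equal
    have h5 : ∀ m, ∑ j ∈ range m, (u ((D ^ j) v) * (l⁻¹) ^ j) * (k.choose j : ℂ) * l ^ k =
        ∑ j ∈ (range m).filter (fun j => j < n ∧ j < k + 1),
          (u ((D ^ j) v) * (l⁻¹) ^ j) * (k.choose j : ℂ) * l ^ k := by
      intro m
      rw [Finset.sum_filter]
      apply Finset.sum_congr rfl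
      intro j _
      split_ifs with h
      · rfl
      · rcases not_and_or.1 h with h | h
        · rw [hz j (not_lt.1 h), map_zero]
          ring
        · rw [Nat.choose_eq_zero_of_lt (by omega)]
          push_cast
          ring
    rw [h5 (k + 1), h5 n]
    congr 1
    ext j
    simp only [Finset.mem_filter, Finset.mem_range]
    constructor
    · rintro ⟨_, h1, h2⟩; exact ⟨h1, h1, h2⟩
    · rintro ⟨_, h1, h2⟩; exact ⟨h2, h1, h2⟩

theorem isEP_pow [FiniteDimensional ℂ V] (T : Module.End ℂ V) (u : V →ₗ[ℂ] ℂ) (v : V) :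
    IsEP (fun k => u ((T ^ k) v)) := by
  have hv : v ∈ ⨆ (l : ℂ), T.maxGenEigenspace l := by
    rw [Module.End.iSup_maxGenEigenspace_eq_top]
    exact Submodule.mem_top
  refine Submodule.iSup_induction (p := fun l => T.maxGenEigenspace l)
    (motive := fun v => IsEP (fun k => u ((T ^ k) v))) hv ?_ ?_ ?_
  · intro l x hx
    rw [Module.End.mem_maxGenEigenspace] at hx
    obtain ⟨n, hn⟩ := hx
    exact isEP_gen T u l x n hn
  · simpa using IsEP.zero
  · intro x y hx hy
    simpa using hx.add hy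

end Pool.Agent.H620.Morph
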