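import Pool.Agent.H620.Morph.Growth

/-! The gap between the growth of two sequences of linear algebra. -/

set_option autoImplicit false

namespace Pool.Agent.H620.Morph

open Finset Filter Topology

theorem pow_small (j : ℕ) {r s : ℝ} (hr : 0 < r) (hrs : r < s) :
    ∀ᶠ k : ℕ in atTop, (k : ℝ) ^ j * r ^ k ≤ s ^ k := by
  have h := tendsto_pow_const_mul_const_pow_of_lt_one j (r := r / s) (div_pos hr (hr.trans hrs)).le
    (by rwa [div_lt_one (hr.trans hrs)])
  have hs : 0 < s := hr.trans hrs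
  filter_upwards [h.eventually (gt_mem_nhds one_pos)] with k hk
  rw [div_pow] at hk
  have h2 : (k : ℝ) ^ j * r ^ k = (k : ℝ) ^ j * (r ^ k / s ^ k) * s ^ k := by field_simp
  rw [h2]
  nlinarith [pow_pos hs k]

/-- **The gap.** If `f`, `g` are exponential polynomials, `f` positive and of at most geometric growth, and `g = o(f)`,
then `g k = O(f k / k)`. -/
theorem gap {f g : ℕ → ℝ} (hf : ∀ k, 0 < f k) (hg : ∀ k, 0 ≤ g k) {M : ℝ} (hM : 1 ≤ M)
    (hfM : ∀ k, f (k + 1) ≤ M * f k) (hfE : IsEP (fun k => (f k : ℂ))) (hgE : IsEP (fun k => (g k : ℂ)))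
    (hlim : Tendsto (fun k => g k / f k) atTop (𝓝 0)) :
    ∃ (C : ℝ) (k₀ : ℕ), ∀ k, k₀ ≤ k → k * g k ≤ C * f k := by
  obtain ⟨cf, hcf, kf, hkf⟩ := hfE
  obtain ⟨cg, hcg, kg, hkg⟩ := hgE
  rcases eq_or_ne cg 0 with h0 | hcg0
  · refine ⟨0, kg, fun k hk => ?_⟩
    have h1 : (g k : ℂ) = 0 := by
      have := hkg k hk
      rw [h0] at this
      simpa [ep] using this
    have h2 : g k = 0 := by exact_mod_cast h1
    rw [h2]; simp
  have hcf0 : cf ≠ 0 := by
    intro h
    have h1 : (f kf : ℂ) = 0 := by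
      have := hkf kf le_rfl
      rw [h] at this
      simpa [ep] using this
    have h2 : f kf = 0 := by exact_mod_cast h1
    exact (hf kf).ne' h2
  obtain ⟨ρf, df, Cf, c1, Qf, k1, hρf, hc1, hfu, hfl⟩ := growth cf hcf0 hcf
  obtain ⟨ρg, dg, Cg, c2, Qg, k2, hρg, hc2, hgu, hgl⟩ := growth cg hcg0 hcg
  have nfF : ∀ k, kf ≤ k → ‖ep cf k‖ = f k := by
    intro k hk
    have := hkf k hk
    simp only at this
    rw [← this, Complex.norm_real, Real.norm_eq_abs, abs_of_pos (hf k)]
  have nfG : ∀ k, kg ≤ k → ‖ep cg k‖ = g k := by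
    intro k hk
    have := hkg k hk
    simp only at this
    rw [← this, Complex.norm_real, Real.norm_eq_abs, abs_of_nonneg (hg k)]
  set nf : ℕ → ℝ := fun k => ρf ^ k * (k : ℝ) ^ df with hnf
  set ng : ℕ → ℝ := fun k => ρg ^ k * (k : ℝ) ^ dg with hng
  have hnf0 : ∀ k, 1 ≤ k → 0 < nf k := by
    intro k hk
    have : (0 : ℝ) < k := by exact_mod_cast hk
    show 0 < ρf ^ k * (k : ℝ) ^ df
    positivity
  have hng0 : ∀ k, 1 ≤ k → 0 < ng k := by
    intro k hk
    have : (0 : ℝ) < k := by exact_mod_cast hk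
    show 0 < ρg ^ k * (k : ℝ) ^ dg
    positivity
  -- the lower bound for `f`
  have hiter : ∀ j k, f (k + j) ≤ M ^ j * f k := by
    intro j
    induction j with
    | zero => intro k; simp
    | succ j ih =>
      intro k
      calc f (k + (j + 1)) = f ((k + j) + 1) := by rw [add_assoc]
        _ ≤ M * f (k + j) := hfM _
        _ ≤ M * (M ^ j * f k) := by gcongr; exact ih k
        _ = M ^ (j + 1) * f k := by ring
  set m := (min 1 ρf) ^ Qf with hm
  have hm0 : 0 < m := pow_pos (lt_min one_pos hρf) _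
  have hflow : ∀ k, max (max kf k1) 1 ≤ k → c1 * m / M ^ Qf * nf k ≤ f k := by
    intro k hk
    have hk1 : kf ≤ k := ((le_max_left _ _).trans (le_max_left _ _)).trans hk
    have hk2 : k1 ≤ k := ((le_max_right _ _).trans (le_max_left _ _)).trans hk
    have hk3 : 1 ≤ k := (le_max_right _ _).trans hk
    obtain ⟨j, hj, hj'⟩ := hfl k hk2
    rw [nfF _ (by omega)] at hj'
    have e1 : M ^ j ≤ M ^ Qf := pow_le_pow_right₀ hM hj
    have e2 : f (k + j) ≤ M ^ Qf * f k := (hiter j k).trans (mul_le_mul_of_nonneg_right e1 (hf k).le)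
    have e3 : m ≤ ρf ^ j := by
      calc m ≤ (min 1 ρf) ^ j := pow_le_pow_of_le_one (le_min zero_le_one hρf.le) (min_le_left _ _) hj
        _ ≤ ρf ^ j := pow_le_pow_left₀ (le_min zero_le_one hρf.le) (min_le_right _ _) _
    have e4 : m * nf k ≤ ρf ^ (k + j) * ((k + j : ℕ) : ℝ) ^ df := by
      calc m * nf k ≤ ρf ^ j * (ρf ^ k * (k : ℝ) ^ df) := mul_le_mul_of_nonneg_right e3 (hnf0 k hk3).le
        _ = ρf ^ (k + j) * (k : ℝ) ^ df := by rw [pow_add]; ring
        _ ≤ ρf ^ (k + j) * ((k + j : ℕ) : ℝ) ^ df := by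
            gcongr
            omega
    rw [div_mul_eq_mul_div, div_le_iff₀ (by positivity)]
    calc c1 * m * nf k = c1 * (m * nf k) := by ring
      _ ≤ c1 * (ρf ^ (k + j) * ((k + j : ℕ) : ℝ) ^ df) := by gcongr
      _ ≤ f (k + j) := hj'
      _ ≤ M ^ Qf * f k := e2
      _ = f k * M ^ Qf := by ring
  -- it is impossible that `nf ≤ ng` for all large `k`
  have himp : ¬ ∀ᶠ k : ℕ in atTop, nf k ≤ ng k := by
    intro hcon
    have hCf : 0 < |Cf| + 1 := by positivity
    have h1 := hlim.eventually (gt_mem_nhds (by positivity : (0 : ℝ) < c2 / (2 * (|Cf| + 1))))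
    obtain ⟨K, hK⟩ := eventually_atTop.1 (h1.and hcon)
    set k := max (max K k2) (max (max k1 kf) (max kg 1)) with hk
    have q1 : K ≤ k := (le_max_left _ _).trans (le_max_left _ _)
    have q2 : k2 ≤ k := (le_max_right _ _).trans (le_max_left _ _)
    have q3 : k1 ≤ k := ((le_max_left _ _).trans (le_max_left _ _)).trans (le_max_right _ _)
    have q4 : kf ≤ k := ((le_max_right _ _).trans (le_max_left _ _)).trans (le_max_right _ _)
    have q5 : kg ≤ k := ((le_max_left _ _).trans (le_max_right _ _)).trans (le_max_right _ _)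
    have q6 : 1 ≤ k := ((le_max_right _ _).trans (le_max_right _ _)).trans (le_max_right _ _)
    obtain ⟨j, _, hj'⟩ := hgl k q2
    obtain ⟨h2, h3⟩ := hK (k + j) (by omega)
    rw [nfG _ (by omega)] at hj'
    have h4 := hfu (k + j) (by omega)
    rw [nfF _ (by omega)] at h4
    have h5 : f (k + j) ≤ (|Cf| + 1) * nf (k + j) := by
      refine h4.trans ?_
      apply mul_le_mul_of_nonneg_right _ (hnf0 _ (by omega)).le
      linarith [le_abs_self Cf]
    rw [div_lt_iff₀ (hf _)] at h2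
    have h6 : g (k + j) < c2 * ng (k + j) := by
      have hp := hng0 (k + j) (by omega)
      have hp' := hnf0 (k + j) (by omega)
      calc g (k + j) < c2 / (2 * (|Cf| + 1)) * f (k + j) := h2
        _ ≤ c2 / (2 * (|Cf| + 1)) * ((|Cf| + 1) * nf (k + j)) := by gcongr
        _ = c2 / 2 * nf (k + j) := by field_simp
        _ ≤ c2 / 2 * ng (k + j) := by gcongr
        _ ≤ c2 * ng (k + j) := by nlinarith
    have h7 : c2 * (ρg ^ (k + j) * ((k + j : ℕ) : ℝ) ^ dg) = c2 * ng (k + j) := rfl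
    linarith
  -- the comparison
  have hcomp : ∀ᶠ k : ℕ in atTop, k * ng k ≤ nf k := by
    rcases lt_trichotomy ρg ρf with h | h | h
    · filter_upwards [pow_small (dg + 1) hρg h, eventually_ge_atTop 1] with k hk hk1
      have hk1' : (1 : ℝ) ≤ k := by exact_mod_cast hk1
      have h3 : (1 : ℝ) ≤ (k : ℝ) ^ df := one_le_pow₀ hk1'
      show k * (ρg ^ k * (k : ℝ) ^ dg) ≤ ρf ^ k * (k : ℝ) ^ df
      calc k * (ρg ^ k * (k : ℝ) ^ dg) = (k : ℝ) ^ (dg + 1) * ρg ^ k := by ring
        _ ≤ ρf ^ k * 1 := by rw [mul_one]; exact hk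
        _ ≤ ρf ^ k * (k : ℝ) ^ df := by gcongr
    · rcases lt_or_ge dg df with h2 | h2
      · filter_upwards [eventually_ge_atTop 1] with k hk1
        have hk1' : (1 : ℝ) ≤ k := by exact_mod_cast hk1
        show k * (ρg ^ k * (k : ℝ) ^ dg) ≤ ρf ^ k * (k : ℝ) ^ df
        calc k * (ρg ^ k * (k : ℝ) ^ dg) = ρf ^ k * (k : ℝ) ^ (dg + 1) := by rw [h]; ring
          _ ≤ ρf ^ k * (k : ℝ) ^ df := by
            apply mul_le_mul_of_nonneg_left _ (by positivity)
            exact pow_le_pow_right₀ hk1' h2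
      · exfalso
        apply himp
        filter_upwards [eventually_ge_atTop 1] with k hk1
        have hk1' : (1 : ℝ) ≤ k := by exact_mod_cast hk1
        show ρf ^ k * (k : ℝ) ^ df ≤ ρg ^ k * (k : ℝ) ^ dg
        rw [h]
        apply mul_le_mul_of_nonneg_left _ (by positivity)
        exact pow_le_pow_right₀ hk1' h2
    · exfalso
      apply himp
      filter_upwards [pow_small df hρf h, eventually_ge_atTop 1] with k hk hk1
      have hk1' : (1 : ℝ) ≤ k := by exact_mod_cast hk1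
      have h3 : (1 : ℝ) ≤ (k : ℝ) ^ dg := one_le_pow₀ hk1'
      show ρf ^ k * (k : ℝ) ^ df ≤ ρg ^ k * (k : ℝ) ^ dg
      calc ρf ^ k * (k : ℝ) ^ df = (k : ℝ) ^ df * ρf ^ k := by ring
        _ ≤ ρg ^ k * 1 := by rw [mul_one]; exact hk
        _ ≤ ρg ^ k * (k : ℝ) ^ dg := by gcongr
  obtain ⟨K, hK⟩ := eventually_atTop.1 hcomp
  set a := c1 * m / M ^ Qf with ha
  have ha0 : 0 < a := by positivity
  refine ⟨(|Cg| + 1) / a, max (max K k2) (max (max (max kf k1) 1) kg), fun k hk => ?_⟩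
  have q1 : K ≤ k := ((le_max_left _ _).trans (le_max_left _ _)).trans hk
  have q2 : k2 ≤ k := ((le_max_right _ _).trans (le_max_left _ _)).trans hk
  have q3 : max (max kf k1) 1 ≤ k := ((le_max_left _ _).trans (le_max_right _ _)).trans hk
  have q4 : kg ≤ k := ((le_max_right _ _).trans (le_max_right _ _)).trans hk
  have q5 : 1 ≤ k := (le_max_right _ _).trans q3
  have h1 := hK k q1
  have h2 := hgu k q2
  rw [nfG k q4] at h2
  have h3 := hflow k q3
  have hp := hng0 k q5
  calc k * g k ≤ k * ((|Cg| + 1) * ng k) := by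
        apply mul_le_mul_of_nonneg_left _ (Nat.cast_nonneg k)
        refine h2.trans ?_
        apply mul_le_mul_of_nonneg_right _ hp.le
        linarith [le_abs_self Cg]
    _ = (|Cg| + 1) * (k * ng k) := by ring
    _ ≤ (|Cg| + 1) * nf k := by gcongr
    _ = (|Cg| + 1) / a * (a * nf k) := by field_simp
    _ ≤ (|Cg| + 1) / a * f k := by gcongr

end Pool.Agent.H620.Morph
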