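import Pool.Agent.H620.Morph.Exp

/-! The growth of exponential polynomials, and the gap between the growth of two of them. -/

set_option autoImplicit false

namespace Pool.Agent.H620.Morph

open Finset Filter Topology

theorem tendsto_choose_div (j : ℕ) :
    Tendsto (fun k : ℕ => (k.choose j : ℝ) / (k : ℝ) ^ j) atTop (𝓝 (1 / (j.factorial : ℝ))) := by
  have h := isEquivalent_choose j
  have hz : ∀ᶠ k : ℕ in atTop, ((k : ℝ) ^ j / (j.factorial : ℝ)) ≠ 0 := by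
    filter_upwards [eventually_ge_atTop 1] with k hk
    have : (0 : ℝ) < k := by exact_mod_cast hk
    positivity
  rw [Asymptotics.isEquivalent_iff_tendsto_one hz] at h
  have h2 := h.mul_const (1 / (j.factorial : ℝ))
  rw [one_mul] at h2
  refine h2.congr' ?_
  filter_upwards [eventually_ge_atTop 1] with k hk
  have : (0 : ℝ) < k := by exact_mod_cast hk
  simp only [Pi.div_apply]
  field_simp

theorem term_lt (a l : ℂ) (j d : ℕ) {ρ : ℝ} (hρ : 0 < ρ) (hl : ‖l‖ < ρ) :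
    Tendsto (fun k : ℕ => ‖a * (k.choose j : ℂ) * l ^ k‖ / (ρ ^ k * (k : ℝ) ^ d)) atTop (𝓝 0) := by
  have h1 : Tendsto (fun k : ℕ => ‖a‖ * ((k : ℝ) ^ j * (‖l‖ / ρ) ^ k)) atTop (𝓝 0) := by
    have := (tendsto_pow_const_mul_const_pow_of_lt_one j (r := ‖l‖ / ρ) (by positivity)
      (by rwa [div_lt_one hρ])).const_mul ‖a‖
    simpa using this
  refine squeeze_zero' (Eventually.of_forall fun k => by positivity) ?_ h1
  filter_upwards [eventually_ge_atTop 1] with k hk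
  have hk1 : (1 : ℝ) ≤ k := by exact_mod_cast hk
  rw [norm_mul, norm_mul, norm_pow, Complex.norm_natCast]
  have h2 : (k.choose j : ℝ) ≤ (k : ℝ) ^ j := by exact_mod_cast Nat.choose_le_pow k j
  have h3 : (1 : ℝ) ≤ (k : ℝ) ^ d := one_le_pow₀ hk1
  rw [div_le_iff₀ (by positivity), div_pow]
  calc ‖a‖ * (k.choose j : ℝ) * ‖l‖ ^ k ≤ ‖a‖ * (k : ℝ) ^ j * ‖l‖ ^ k := by gcongr
    _ = ‖a‖ * ((k : ℝ) ^ j * (‖l‖ ^ k / ρ ^ k)) * (ρ ^ k * 1) := by field_simp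
    _ ≤ ‖a‖ * ((k : ℝ) ^ j * (‖l‖ ^ k / ρ ^ k)) * (ρ ^ k * (k : ℝ) ^ d) := by gcongr

theorem term_eq_lt (a l : ℂ) (j d : ℕ) {ρ : ℝ} (hρ : 0 < ρ) (hl : ‖l‖ = ρ) (hj : j < d) :
    Tendsto (fun k : ℕ => ‖a * (k.choose j : ℂ) * l ^ k‖ / (ρ ^ k * (k : ℝ) ^ d)) atTop (𝓝 0) := by
  have h1 : Tendsto (fun k : ℕ => ‖a‖ * (1 / (k : ℝ))) atTop (𝓝 0) := by
    have := tendsto_one_div_atTop_nhds_zero_nat.const_mul ‖a‖
    simpa using this
  refine squeeze_zero' (Eventually.of_forall fun k => by positivity) ?_ h1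
  filter_upwards [eventually_ge_atTop 1] with k hk
  have hk1 : (1 : ℝ) ≤ k := by exact_mod_cast hk
  rw [norm_mul, norm_mul, norm_pow, Complex.norm_natCast, hl]
  have h2 : (k.choose j : ℝ) ≤ (k : ℝ) ^ j := by exact_mod_cast Nat.choose_le_pow k j
  have h3 : (k : ℝ) ^ j * k ≤ (k : ℝ) ^ d := by
    rw [← pow_succ]
    exact pow_le_pow_right₀ hk1 hj
  rw [div_le_iff₀ (by positivity)]
  calc ‖a‖ * (k.choose j : ℝ) * ρ ^ k ≤ ‖a‖ * (k : ℝ) ^ j * ρ ^ k := by gcongr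
    _ = ‖a‖ * (1 / (k : ℝ)) * (ρ ^ k * ((k : ℝ) ^ j * k)) := by field_simp
    _ ≤ ‖a‖ * (1 / (k : ℝ)) * (ρ ^ k * (k : ℝ) ^ d) := by gcongr

theorem term_eq (a l : ℂ) (d : ℕ) {ρ : ℝ} (hρ : 0 < ρ) (hl : ‖l‖ = ρ) :
    Tendsto (fun k : ℕ => ‖a * (k.choose d : ℂ) * l ^ k -
      ((ρ ^ k * (k : ℝ) ^ d : ℝ) : ℂ) * (a / (d.factorial : ℂ) * (l / ρ) ^ k)‖ / (ρ ^ k * (k : ℝ) ^ d))
      atTop (𝓝 0) := by
  have h1 : Tendsto (fun k : ℕ => ‖a‖ * |(k.choose d : ℝ) / (k : ℝ) ^ d - 1 / (d.factorial : ℝ)|) atTop (𝓝 0) := by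
    have h2 := (tendsto_choose_div d).sub_const (1 / (d.factorial : ℝ))
    rw [sub_self] at h2
    have h3 := (h2.abs).const_mul ‖a‖
    simpa using h3
  refine h1.congr' ?_
  filter_upwards [eventually_ge_atTop 1] with k hk
  have hk1 : (0 : ℝ) < k := by exact_mod_cast hk
  have hρ' : (ρ : ℂ) ≠ 0 := by exact_mod_cast hρ.ne'
  have hk' : (k : ℂ) ≠ 0 := by exact_mod_cast hk1.ne'
  have hf : (d.factorial : ℂ) ≠ 0 := by exact_mod_cast d.factorial_ne_zero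
  have e : a * (k.choose d : ℂ) * l ^ k -
      ((ρ ^ k * (k : ℝ) ^ d : ℝ) : ℂ) * (a / (d.factorial : ℂ) * (l / ρ) ^ k) =
      a * (((k.choose d : ℝ) / (k : ℝ) ^ d - 1 / (d.factorial : ℝ) : ℝ) : ℂ) * (l ^ k * (k : ℂ) ^ d) := by
    push_cast
    rw [div_pow]
    field_simp
  rw [e, norm_mul, norm_mul, Complex.norm_real, norm_mul, norm_pow, norm_pow, hl, Complex.norm_natCast,
    Real.norm_eq_abs, mul_div_assoc, div_self (by positivity), mul_one]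

/-- A nonzero trigonometric polynomial is not small on long intervals of integers. -/
theorem trig_lower (F : Finset ℂ) (hF : ∀ l ∈ F, ‖l‖ = 1) (b : ℂ → ℂ) (l₀ : ℂ) (hl₀ : l₀ ∈ F) (hb : b l₀ ≠ 0) :
    ∃ (c₁ : ℝ) (Q : ℕ), 0 < c₁ ∧ ∀ k : ℕ, ∃ j, j ≤ Q ∧ c₁ ≤ ‖∑ l ∈ F, b l * l ^ (k + j)‖ := by
  classical
  set q := Lagrange.basis F (id : ℂ → ℂ) l₀ with hq
  set Q := q.natDegree with hQ
  set A := ∑ i ∈ range (Q + 1), ‖q.coeff i‖ with hA
  have hA0 : 0 ≤ A := Finset.sum_nonneg fun _ _ => norm_nonneg _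
  have hinj : Set.InjOn (id : ℂ → ℂ) F := fun x _ y _ h => h
  have hq1 : q.eval l₀ = 1 := Lagrange.eval_basis_self hinj hl₀
  have hq0 : ∀ l ∈ F, l ≠ l₀ → q.eval l = 0 := fun l hl h =>
    Lagrange.eval_basis_of_ne (v := (id : ℂ → ℂ)) (Ne.symm h) hl
  have hb0 : 0 < ‖b l₀‖ := norm_pos_iff.2 hb
  refine ⟨‖b l₀‖ / (A + 1), Q, by positivity, fun k => ?_⟩
  by_contra hcon
  push Not at hcon
  have h1 : ∑ i ∈ range (Q + 1), q.coeff i * (∑ l ∈ F, b l * l ^ (k + i)) = b l₀ * l₀ ^ k := by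
    have h2 : ∑ i ∈ range (Q + 1), q.coeff i * (∑ l ∈ F, b l * l ^ (k + i)) =
        ∑ l ∈ F, b l * l ^ k * q.eval l := by
      simp_rw [Finset.mul_sum]
      rw [Finset.sum_comm]
      apply Finset.sum_congr rfl
      intro l _
      rw [Polynomial.eval_eq_sum_range, Finset.mul_sum]
      apply Finset.sum_congr rfl
      intro i _
      rw [pow_add]; ring
    rw [h2, Finset.sum_eq_single l₀]
    · rw [hq1, mul_one]
    · intro l hl hne
      rw [hq0 l hl hne, mul_zero]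
    · intro h; exact absurd hl₀ h
  have h3 : ‖b l₀‖ ≤ A * (‖b l₀‖ / (A + 1)) := by
    calc ‖b l₀‖ = ‖b l₀ * l₀ ^ k‖ := by rw [norm_mul, norm_pow, hF l₀ hl₀, one_pow, mul_one]
      _ = ‖∑ i ∈ range (Q + 1), q.coeff i * (∑ l ∈ F, b l * l ^ (k + i))‖ := by rw [h1]
      _ ≤ ∑ i ∈ range (Q + 1), ‖q.coeff i * (∑ l ∈ F, b l * l ^ (k + i))‖ := norm_sum_le _ _
      _ ≤ ∑ i ∈ range (Q + 1), ‖q.coeff i‖ * (‖b l₀‖ / (A + 1)) := by
          apply Finset.sum_le_sum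
          intro i hi
          rw [norm_mul]
          apply mul_le_mul_of_nonneg_left _ (norm_nonneg _)
          exact (hcon i (Nat.lt_succ_iff.1 (Finset.mem_range.1 hi))).le
      _ = A * (‖b l₀‖ / (A + 1)) := by rw [← Finset.sum_mul]
  have h4 : A * (‖b l₀‖ / (A + 1)) < ‖b l₀‖ := by
    rw [mul_div_assoc', div_lt_iff₀ (by positivity)]
    nlinarith
  linarith

/-- **The growth of an exponential polynomial.** -/
theorem growth (c : (ℂ × ℕ) →₀ ℂ) (hc : c ≠ 0) (h0 : ∀ p ∈ c.support, p.1 ≠ 0) :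
    ∃ (ρ : ℝ) (d : ℕ) (C c₁ : ℝ) (Q k₀ : ℕ), 0 < ρ ∧ 0 < c₁ ∧
      (∀ k : ℕ, k₀ ≤ k → ‖ep c k‖ ≤ C * (ρ ^ k * (k : ℝ) ^ d)) ∧
      (∀ k : ℕ, k₀ ≤ k → ∃ j, j ≤ Q ∧ c₁ * (ρ ^ (k + j) * ((k + j : ℕ) : ℝ) ^ d) ≤ ‖ep c (k + j)‖) := by
  classical
  have hne : c.support.Nonempty := Finsupp.support_nonempty_iff.2 hc
  obtain ⟨p₁, hp₁, hp₁'⟩ := Finset.exists_max_image c.support (fun p => ‖p.1‖) hne
  set ρ := ‖p₁.1‖ with hρd
  have hρ : 0 < ρ := norm_pos_iff.2 (h0 p₁ hp₁)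
  have hne2 : (c.support.filter (fun p => ‖p.1‖ = ρ)).Nonempty := ⟨p₁, by
    rw [Finset.mem_filter]; exact ⟨hp₁, rfl⟩⟩
  obtain ⟨p₂, hp₂, hp₂'⟩ := Finset.exists_max_image (c.support.filter (fun p => ‖p.1‖ = ρ)) (fun p => p.2) hne2
  rw [Finset.mem_filter] at hp₂
  set d := p₂.2 with hd
  set nf : ℕ → ℝ := fun k => ρ ^ k * (k : ℝ) ^ d with hnf
  have hnf0 : ∀ k, 1 ≤ k → 0 < nf k := by
    intro k hk
    have : (0 : ℝ) < k := by exact_mod_cast hk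
    show 0 < ρ ^ k * (k : ℝ) ^ d
    positivity
  set Top := c.support.filter (fun p => ‖p.1‖ = ρ ∧ p.2 = d) with hTop
  -- the leading part
  set φ : ℕ → ℂ := fun k => ∑ p ∈ Top, c p / (d.factorial : ℂ) * (p.1 / ρ) ^ k with hφ
  have hlim : Tendsto (fun k : ℕ => ‖ep c k - (nf k : ℂ) * φ k‖ / nf k) atTop (𝓝 0) := by
    have hsum : Tendsto (fun k : ℕ => ∑ p ∈ c.support,
        ‖c p * (k.choose p.2 : ℂ) * p.1 ^ k -
          (if ‖p.1‖ = ρ ∧ p.2 = d then (nf k : ℂ) * (c p / (d.factorial : ℂ) * (p.1 / ρ) ^ k) else 0)‖ / nf k)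
        atTop (𝓝 0) := by
      have : (0 : ℝ) = ∑ p ∈ c.support, (0 : ℝ) := by simp
      rw [this]
      apply tendsto_finsetSum
      intro p hp
      by_cases hT : ‖p.1‖ = ρ ∧ p.2 = d
      · simp only [if_pos hT]
        have := term_eq (c p) p.1 d hρ hT.1
        rw [hT.2]
        exact this
      · simp only [if_neg hT, sub_zero]
        rcases (hp₁' p hp).lt_or_eq with h | h
        · exact term_lt (c p) p.1 p.2 d hρ h
        · have h2 : p.2 ≤ d := hp₂' p (Finset.mem_filter.2 ⟨hp, h⟩)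
          have h3 : p.2 < d := lt_of_le_of_ne h2 fun h4 => hT ⟨h, h4⟩
          exact term_eq_lt (c p) p.1 p.2 d hρ h h3
    refine squeeze_zero' ?_ ?_ hsum
    · filter_upwards [eventually_ge_atTop 1] with k hk
      have := hnf0 k hk
      positivity
    · filter_upwards [eventually_ge_atTop 1] with k hk
      have := hnf0 k hk
      rw [← Finset.sum_div]
      apply div_le_div_of_nonneg_right _ this.le
      have e : ep c k - (nf k : ℂ) * φ k = ∑ p ∈ c.support,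
          (c p * (k.choose p.2 : ℂ) * p.1 ^ k -
          (if ‖p.1‖ = ρ ∧ p.2 = d then (nf k : ℂ) * (c p / (d.factorial : ℂ) * (p.1 / ρ) ^ k) else 0)) := by
        rw [Finset.sum_sub_distrib]
        congr 1
        rw [hφ]
        simp only
        rw [hTop, Finset.mul_sum, Finset.sum_filter]
      rw [e]
      exact norm_sum_le _ _
  -- the leading part is bounded
  have hωn : ∀ p ∈ Top, ‖p.1 / (ρ : ℂ)‖ = 1 := by
    intro p hp
    rw [hTop, Finset.mem_filter] at hp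
    rw [norm_div, Complex.norm_real, hp.2.1, Real.norm_eq_abs, abs_of_pos hρ, div_self hρ.ne']
  have hup : ∀ k, ‖φ k‖ ≤ ∑ p ∈ Top, ‖c p / (d.factorial : ℂ)‖ := by
    intro k
    refine (norm_sum_le _ _).trans (Finset.sum_le_sum fun p hp => ?_)
    rw [norm_mul, norm_pow, hωn p hp, one_pow, mul_one]
  -- the leading part is not small
  have hinj : Set.InjOn (fun p : ℂ × ℕ => p.1 / (ρ : ℂ)) Top := by
    intro p hp p' hp' h
    rw [hTop, Finset.mem_coe, Finset.mem_filter] at hp hp'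
    have hρ' : (ρ : ℂ) ≠ 0 := by exact_mod_cast hρ.ne'
    have h1 : p.1 = p'.1 := by
      have : p.1 / (ρ : ℂ) = p'.1 / (ρ : ℂ) := h
      field_simp at this
      exact this
    exact Prod.ext h1 (hp.2.2.trans hp'.2.2.symm)
  have hp₂T : p₂ ∈ Top := by
    rw [hTop, Finset.mem_filter]
    exact ⟨hp₂.1, hp₂.2, rfl⟩
  have hρ' : (ρ : ℂ) ≠ 0 := by exact_mod_cast hρ.ne'
  obtain ⟨c₁, Q, hc₁, hlow⟩ := trig_lower (Top.image (fun p : ℂ × ℕ => p.1 / (ρ : ℂ)))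
    (by
      intro l hl
      rw [Finset.mem_image] at hl
      obtain ⟨p, hp, rfl⟩ := hl
      exact hωn p hp)
    (fun l => c (l * ρ, d) / (d.factorial : ℂ)) (p₂.1 / ρ)
    (Finset.mem_image_of_mem _ hp₂T) (by
      have : (p₂.1 / (ρ : ℂ) * ρ, d) = p₂ := by
        rw [div_mul_cancel₀ _ hρ']
      rw [this]
      apply div_ne_zero
      · exact Finsupp.mem_support_iff.1 hp₂.1
      · exact_mod_cast d.factorial_ne_zero)
  have hφ' : ∀ k, φ k = ∑ l ∈ Top.image (fun p : ℂ × ℕ => p.1 / (ρ : ℂ)),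
      c (l * ρ, d) / (d.factorial : ℂ) * l ^ k := by
    intro k
    rw [Finset.sum_image hinj]
    rw [hφ]
    apply Finset.sum_congr rfl
    intro p hp
    rw [hTop, Finset.mem_filter] at hp
    have : (p.1 / (ρ : ℂ) * ρ, d) = p := by
      rw [div_mul_cancel₀ _ hρ', ← hp.2.2]
    rw [this]
  have hev := hlim.eventually (gt_mem_nhds (by positivity : (0 : ℝ) < c₁ / 2))
  obtain ⟨k₀, hk₀⟩ := eventually_atTop.1 (hev.and (eventually_ge_atTop 1))
  refine ⟨ρ, d, (∑ p ∈ Top, ‖c p / (d.factorial : ℂ)‖) + c₁ / 2, c₁ / 2, Q, k₀, hρ, by positivity, ?_, ?_⟩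
  · intro k hk
    obtain ⟨h1, h2⟩ := hk₀ k hk
    have hn := hnf0 k h2
    rw [div_lt_iff₀ hn] at h1
    have h3 : ‖ep c k‖ ≤ ‖ep c k - (nf k : ℂ) * φ k‖ + ‖(nf k : ℂ) * φ k‖ := by
      have := norm_add_le (ep c k - (nf k : ℂ) * φ k) ((nf k : ℂ) * φ k)
      rwa [sub_add_cancel] at this
    have h4 : ‖(nf k : ℂ) * φ k‖ ≤ nf k * ∑ p ∈ Top, ‖c p / (d.factorial : ℂ)‖ := by
      rw [norm_mul, Complex.norm_real, Real.norm_eq_abs, abs_of_pos hn]
      exact mul_le_mul_of_nonneg_left (hup k) hn.le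
    show ‖ep c k‖ ≤ _ * nf k
    nlinarith
  · intro k hk
    obtain ⟨j, hj, hj'⟩ := hlow k
    refine ⟨j, hj, ?_⟩
    obtain ⟨h1, h2⟩ := hk₀ (k + j) (by omega)
    have hn := hnf0 (k + j) h2
    rw [div_lt_iff₀ hn] at h1
    have h3 : ‖(nf (k + j) : ℂ) * φ (k + j)‖ ≤
        ‖ep c (k + j) - (nf (k + j) : ℂ) * φ (k + j)‖ + ‖ep c (k + j)‖ := by
      have := norm_sub_le (ep c (k + j)) (ep c (k + j) - (nf (k + j) : ℂ) * φ (k + j))
      rw [sub_sub_cancel] at this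
      linarith
    have h4 : c₁ * nf (k + j) ≤ ‖(nf (k + j) : ℂ) * φ (k + j)‖ := by
      rw [norm_mul, Complex.norm_real, Real.norm_eq_abs, abs_of_pos hn, hφ', mul_comm]
      exact mul_le_mul_of_nonneg_left hj' hn.le
    show c₁ / 2 * nf (k + j) ≤ _
    nlinarith

end Pool.Agent.H620.Morph
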