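import Pool.Agent.H620.Morph.Count
import Pool.Agent.H620.Bdry.Main

/-! Invariant sets are not near to morphic sets. -/

set_option autoImplicit false

namespace Pool.Agent.H620.Morph

open Finset Filter Topology

/-- The bound of the theorem. -/
noncomputable def hh (N : ℕ) : ℝ := N / (√(Real.log N) * Real.log (Real.log N) ^ 4)

theorem pow_log_le (j : ℕ) : ∀ᶠ u : ℝ in atTop, Real.log u ^ j ≤ u := by
  have e1 : Tendsto (fun u : ℝ => Real.log u ^ j / (1 * u + 0)) atTop (nhds 0) :=
    Real.tendsto_pow_log_div_mul_add_atTop 1 0 j one_ne_zero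
  filter_upwards [e1.eventually (ge_mem_nhds (one_pos)), eventually_gt_atTop 0] with u hu hu0
  rw [one_mul, add_zero, div_le_one hu0] at hu
  exact hu

theorem hh_facts : ∀ᶠ N : ℕ in atTop, 1 ≤ hh N ∧ (N : ℝ) / Real.log N ≤ hh N ∧ hh N ≤ N / √(Real.log N) := by
  have e3 : Tendsto (fun N : ℕ => Real.log (N : ℝ)) atTop atTop :=
    Real.tendsto_log_atTop.comp tendsto_natCast_atTop_atTop
  filter_upwards [e3.eventually (pow_log_le 8), tendsto_natCast_atTop_atTop.eventually (pow_log_le 2),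
    e3.eventually (eventually_gt_atTop 3), eventually_gt_atTop 0] with N h3 h4 h5 h6
  have hN : (0 : ℝ) < N := by exact_mod_cast h6
  set L := Real.log (N : ℝ) with hL
  have hll : 1 ≤ Real.log L := by
    rw [Real.le_log_iff_exp_le (by linarith)]
    have := Real.exp_one_lt_d9
    linarith
  have hs : 0 < √L := Real.sqrt_pos.2 (by linarith)
  have hs1 : 1 ≤ √L := by
    rw [Real.one_le_sqrt]
    linarith
  have hss : √L * √L = L := Real.mul_self_sqrt (by linarith)
  have h7 : Real.log L ^ 4 ≤ √L := by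
    apply Real.le_sqrt_of_sq_le
    rw [← pow_mul]
    exact h3
  have h8 : √L * Real.log L ^ 4 ≤ L := by
    calc √L * Real.log L ^ 4 ≤ √L * √L := by gcongr
      _ = L := hss
  have h9 : L ≤ N := by nlinarith
  have h10 : 0 < Real.log L := by linarith
  refine ⟨?_, ?_, ?_⟩
  · unfold hh
    rw [one_le_div (by positivity)]
    exact h8.trans h9
  · unfold hh
    apply div_le_div_of_nonneg_left hN.le (by positivity) h8
  · unfold hh
    apply div_le_div_of_nonneg_left hN.le hs
    have : 1 ≤ Real.log L ^ 4 := one_le_pow₀ hll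
    nlinarith

open Classical in
theorem ch_eq (w : ℕ → Prop) (N : ℕ) : ch w N = ((range N).filter (fun i => ¬ (w i ↔ w (i + 1)))).card := by
  unfold ch
  rw [Finset.card_filter]
  apply Finset.sum_congr rfl
  intro i _
  by_cases h : w i ↔ w (i + 1)
  · rw [if_pos h, if_neg (not_not.2 h)]
  · rw [if_neg h, if_pos h]

open Classical in
/-- The number of the places `1 ≤ n ≤ N` where two properties differ. -/
theorem diff_eq (P w : ℕ → Prop) (N : ℕ) : {n : ℕ | 1 ≤ n ∧ n ≤ N ∧ ¬ (P n ↔ w n)}.ncard =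
    ((Icc 1 N).filter (fun n => ¬ (P n ↔ w n))).card := by
  rw [← Set.ncard_coe_finset]
  congr 1
  ext n
  simp [and_assoc]

open Classical in
theorem change_le (P w : ℕ → Prop) (N : ℕ) :
    ch w N ≤ 1 + ((Icc 1 N).filter (fun n => ¬ (P n ↔ P (n + 1)))).card +
      2 * ((Icc 1 N).filter (fun n => ¬ (P n ↔ w n))).card := by
  rw [ch_eq]
  have hsub : (range N).filter (fun i => ¬ (w i ↔ w (i + 1))) ⊆
      ({0} ∪ (Icc 1 N).filter (fun n => ¬ (P n ↔ P (n + 1)))) ∪
        ((Icc 1 N).filter (fun n => ¬ (P n ↔ w n)) ∪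
          ((Icc 1 N).filter (fun n => ¬ (P n ↔ w n))).image (fun n => n - 1)) := by
    intro i hi
    rw [Finset.mem_filter, Finset.mem_range] at hi
    obtain ⟨h1, h2⟩ := hi
    rcases Nat.eq_zero_or_pos i with h0 | h0
    · simp [h0]
    · by_cases e1 : P i ↔ w i
      · by_cases e2 : P (i + 1) ↔ w (i + 1)
        · apply Finset.mem_union_left
          apply Finset.mem_union_right
          rw [Finset.mem_filter, Finset.mem_Icc]
          refine ⟨⟨h0, by omega⟩, ?_⟩
          rw [e1, e2]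
          exact h2
        · apply Finset.mem_union_right
          apply Finset.mem_union_right
          rw [Finset.mem_image]
          refine ⟨i + 1, ?_, rfl⟩
          rw [Finset.mem_filter, Finset.mem_Icc]
          exact ⟨⟨by omega, by omega⟩, e2⟩
      · apply Finset.mem_union_right
        apply Finset.mem_union_left
        rw [Finset.mem_filter, Finset.mem_Icc]
        exact ⟨⟨h0, by omega⟩, e1⟩
  refine (Finset.card_le_card hsub).trans ?_
  refine (Finset.card_union_le _ _).trans ?_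
  have h1 := Finset.card_union_le ({0} : Finset ℕ) ((Icc 1 N).filter (fun n => ¬ (P n ↔ P (n + 1))))
  rw [Finset.card_singleton] at h1
  have h2 := Finset.card_union_le ((Icc 1 N).filter (fun n => ¬ (P n ↔ w n)))
    (((Icc 1 N).filter (fun n => ¬ (P n ↔ w n))).image (fun n => n - 1))
  have h3 : (((Icc 1 N).filter (fun n => ¬ (P n ↔ w n))).image (fun n => n - 1)).card ≤
    ((Icc 1 N).filter (fun n => ¬ (P n ↔ w n))).card := Finset.card_image_le
  omega

open Classical in
theorem bd_le (P w : ℕ → Prop) (N : ℕ) :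
    ((Icc 1 N).filter (fun n => ¬ (P n ↔ P (n + 1)))).card ≤ ch w N + 2 +
      2 * ((Icc 1 N).filter (fun n => ¬ (P n ↔ w n))).card := by
  rw [ch_eq]
  have hsub : (Icc 1 N).filter (fun n => ¬ (P n ↔ P (n + 1))) ⊆
      ({N} ∪ (range N).filter (fun i => ¬ (w i ↔ w (i + 1)))) ∪
        ((Icc 1 N).filter (fun n => ¬ (P n ↔ w n)) ∪
          ((Icc 1 N).filter (fun n => ¬ (P n ↔ w n))).image (fun n => n - 1)) := by
    intro i hi
    rw [Finset.mem_filter, Finset.mem_Icc] at hi
    obtain ⟨⟨h0, h1⟩, h2⟩ := hi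
    rcases h1.eq_or_lt with h | h
    · simp [h]
    · by_cases e1 : P i ↔ w i
      · by_cases e2 : P (i + 1) ↔ w (i + 1)
        · apply Finset.mem_union_left
          apply Finset.mem_union_right
          rw [Finset.mem_filter, Finset.mem_range]
          refine ⟨h, ?_⟩
          rw [← e1, ← e2]
          exact h2
        · apply Finset.mem_union_right
          apply Finset.mem_union_right
          rw [Finset.mem_image]
          refine ⟨i + 1, ?_, rfl⟩
          rw [Finset.mem_filter, Finset.mem_Icc]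
          exact ⟨⟨by omega, by omega⟩, e2⟩
      · apply Finset.mem_union_right
        apply Finset.mem_union_left
        rw [Finset.mem_filter, Finset.mem_Icc]
        exact ⟨⟨h0, by omega⟩, e1⟩
  refine (Finset.card_le_card hsub).trans ?_
  refine (Finset.card_union_le _ _).trans ?_
  have h1 := Finset.card_union_le ({N} : Finset ℕ) ((range N).filter (fun i => ¬ (w i ↔ w (i + 1))))
  rw [Finset.card_singleton] at h1
  have h2 := Finset.card_union_le ((Icc 1 N).filter (fun n => ¬ (P n ↔ w n)))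
    (((Icc 1 N).filter (fun n => ¬ (P n ↔ w n))).image (fun n => n - 1))
  have h3 : (((Icc 1 N).filter (fun n => ¬ (P n ↔ w n))).image (fun n => n - 1)).card ≤
    ((Icc 1 N).filter (fun n => ¬ (P n ↔ w n))).card := Finset.card_image_le
  omega

/-- **Main lemma.** -/
theorem not_near {P w : ℕ → Prop} (hP : ∀ n, 1 ≤ n → (P n ↔ P (Bdry.T n))) (hex : ∃ n, 1 ≤ n ∧ P n)
    (hex' : ∃ n, 1 ≤ n ∧ ¬ P n) (hw : IsMorphic w) (K : ℝ)
    (h : ∀ᶠ N : ℕ in atTop, ({n : ℕ | 1 ≤ n ∧ n ≤ N ∧ ¬ (P n ↔ w n)}.ncard : ℝ) ≤ K * hh N) : False := by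
  classical
  obtain ⟨K', hK'⟩ := Bdry.upper_bound
  have hB : ∀ N : ℕ, {n : ℕ | 1 ≤ n ∧ n ≤ N ∧ ¬ (P n ↔ P (n + 1))}.ncard =
      ((Icc 1 N).filter (fun n => ¬ (P n ↔ P (n + 1)))).card := fun N => diff_eq P (fun n => P (n + 1)) N
  have e3 : Tendsto (fun N : ℕ => Real.log (N : ℝ)) atTop atTop :=
    Real.tendsto_log_atTop.comp tendsto_natCast_atTop_atTop
  -- the changes of `w` have density zero
  have ho : Tendsto (fun N : ℕ => (ch w N : ℝ) / N) atTop (𝓝 0) := by
    have hup : Tendsto (fun N : ℕ => (1 : ℝ) / N + (|K'| + 2 * |K|) * (√(Real.log N))⁻¹) atTop (𝓝 0) := by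
      have h1 := tendsto_one_div_atTop_nhds_zero_nat (𝕜 := ℝ)
      have h2 : Tendsto (fun N : ℕ => (√(Real.log (N : ℝ)))⁻¹) atTop (𝓝 0) :=
        tendsto_inv_atTop_zero.comp ((Real.tendsto_sqrt_atTop).comp e3)
      have h3 := h1.add (h2.const_mul (|K'| + 2 * |K|))
      simpa using h3
    refine squeeze_zero' (Eventually.of_forall fun N => by positivity) ?_ hup
    filter_upwards [h, hh_facts, eventually_ge_atTop 2, e3.eventually (eventually_gt_atTop 0)] with N h1 h2 h3 h4
    have hN : (0 : ℝ) < N := by exact_mod_cast (by omega : 0 < N)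
    have h5 := change_le P w N
    rw [← hB N, ← diff_eq P w N] at h5
    have h6 : (ch w N : ℝ) ≤ 1 + ({n : ℕ | 1 ≤ n ∧ n ≤ N ∧ ¬ (P n ↔ P (n + 1))}.ncard : ℝ) +
        2 * ({n : ℕ | 1 ≤ n ∧ n ≤ N ∧ ¬ (P n ↔ w n)}.ncard : ℝ) := by exact_mod_cast h5
    have h7 := hK' P hP N h3
    have hs : 0 < √(Real.log (N : ℝ)) := Real.sqrt_pos.2 h4
    have hq : 0 ≤ (N : ℝ) / √(Real.log N) := by positivity
    have h8 : K' * ((N : ℝ) / √(Real.log N)) ≤ |K'| * ((N : ℝ) / √(Real.log N)) :=
      mul_le_mul_of_nonneg_right (le_abs_self _) hq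
    have h9 : K * hh N ≤ |K| * ((N : ℝ) / √(Real.log N)) := by
      calc K * hh N ≤ |K| * hh N := mul_le_mul_of_nonneg_right (le_abs_self _) (by linarith [h2.1])
        _ ≤ |K| * ((N : ℝ) / √(Real.log N)) := mul_le_mul_of_nonneg_left h2.2.2 (abs_nonneg _)
    rw [div_le_iff₀ hN]
    have h10 : ((1 : ℝ) / N + (|K'| + 2 * |K|) * (√(Real.log N))⁻¹) * N =
        1 + |K'| * ((N : ℝ) / √(Real.log N)) + 2 * (|K| * ((N : ℝ) / √(Real.log N))) := by
      field_simp
      ring
    rw [h10]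
    linarith
  obtain ⟨C, hC0, hC⟩ := morphic_gap hw ho
  apply Bdry.not_thin hP hex hex' (C + 2 * |K| + 3)
  filter_upwards [h, hh_facts, hC] with N h1 h2 h3
  have h4 := bd_le P w N
  rw [← hB N, ← diff_eq P w N] at h4
  have h5 := Bdry.cb_le (P := P) N
  have h6 : (Bdry.cb P N : ℝ) ≤ ch w N + 3 + 2 * ({n : ℕ | 1 ≤ n ∧ n ≤ N ∧ ¬ (P n ↔ w n)}.ncard : ℝ) := by
    have : Bdry.cb P N ≤ ch w N + 3 + 2 * {n : ℕ | 1 ≤ n ∧ n ≤ N ∧ ¬ (P n ↔ w n)}.ncard := by omega
    exact_mod_cast this
  have h7 : C * ((N : ℝ) / Real.log N) ≤ C * hh N := mul_le_mul_of_nonneg_left h2.2.1 hC0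
  have h8 : K * hh N ≤ |K| * hh N := mul_le_mul_of_nonneg_right (le_abs_self _) (by linarith [h2.1])
  show (Bdry.cb P N : ℝ) ≤ (C + 2 * |K| + 3) * hh N
  nlinarith [h2.1]

/-- The constant word is morphic. -/
theorem morphic_true : IsMorphic (fun _ => True) := by
  refine ⟨Unit, inferInstance, fun _ => [(), ()], (), fun _ => True, by simp, ⟨[()], by simp, rfl⟩, ?_⟩
  intro k i hi
  simp

end Pool.Agent.H620.Morph
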