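import Pool.Agent.H620.Morph.Gap

/-! Morphic words: counting the places where the coded word changes. -/

set_option autoImplicit false

namespace Pool.Agent.H620.Morph

open Finset Filter Topology

variable {A : Type*}

/-- The image of a word under a morphism. -/
def sig (σ : A → List A) (W : List A) : List A := W.flatMap σ

theorem sig_append (σ : A → List A) (W W' : List A) : sig σ (W ++ W') = sig σ W ++ sig σ W' := by
  simp [sig]

theorem iter_append (σ : A → List A) (k : ℕ) (W W' : List A) :
    (sig σ)^[k] (W ++ W') = (sig σ)^[k] W ++ (sig σ)^[k] W' := by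
  induction k with
  | zero => rfl
  | succ k ih => simp only [Function.iterate_succ_apply', ih, sig_append]

/-- The action of a morphism on functions. -/
noncomputable def act (σ : A → List A) : Module.End ℂ (A → ℂ) where
  toFun φ := fun b => ((σ b).map φ).sum
  map_add' φ ψ := by
    ext b
    simp only [Pi.add_apply]
    induction σ b with
    | nil => simp
    | cons c W ih => simp only [List.map_cons, List.sum_cons, Pi.add_apply, ih]; ring
  map_smul' r φ := by
    ext b
    simp only [RingHom.id_apply, Pi.smul_apply, smul_eq_mul]
    induction σ b with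
    | nil => simp
    | cons c W ih => simp only [List.map_cons, List.sum_cons, Pi.smul_apply, smul_eq_mul, ih]; ring

theorem act_apply (σ : A → List A) (φ : A → ℂ) (b : A) : act σ φ b = ((σ b).map φ).sum := rfl

theorem sum_sig (σ : A → List A) (φ : A → ℂ) (W : List A) :
    ((sig σ W).map φ).sum = (W.map (act σ φ)).sum := by
  induction W with
  | nil => simp [sig]
  | cons b W ih =>
    have : sig σ (b :: W) = σ b ++ sig σ W := by simp [sig]
    rw [this, List.map_append, List.sum_append, ih, List.map_cons, List.sum_cons, act_apply]

theorem sum_iter (σ : A → List A) (k : ℕ) (φ : A → ℂ) (W : List A) :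
    (((sig σ)^[k] W).map φ).sum = (W.map ((act σ ^ k) φ)).sum := by
  induction k generalizing φ with
  | zero => simp
  | succ k ih =>
    rw [Function.iterate_succ_apply', sum_sig, ih, pow_succ, Module.End.mul_apply]

theorem isEP_iter [Finite A] (σ : A → List A) (φ : A → ℂ) (a : A) :
    IsEP (fun k => (((sig σ)^[k] [a]).map φ).sum) := by
  have := Fintype.ofFinite A
  have h := isEP_pow (act σ) (LinearMap.proj a : (A → ℂ) →ₗ[ℂ] ℂ) φ
  refine h.congr 0 fun k _ => ?_
  rw [sum_iter]
  simp

theorem length_sum (W : List A) : ((W.length : ℝ) : ℂ) = (W.map (fun _ => (1 : ℂ))).sum := by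
  induction W with
  | nil => simp
  | cons b W ih => rw [List.map_cons, List.sum_cons, ← ih, List.length_cons]; push_cast; ring

theorem countP_sum (W : List A) (E : A → Bool) :
    ((W.countP E : ℝ) : ℂ) = (W.map (fun b => if E b then (1 : ℂ) else 0)).sum := by
  induction W with
  | nil => simp
  | cons b W ih =>
    rw [List.map_cons, List.sum_cons, ← ih, List.countP_cons]
    split_ifs <;> push_cast <;> ring

/-- The pairs of neighbouring letters of a word which is followed by the letter `z`. -/
def pr (z : A) : List A → List (A × A)
  | [] => []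
  | [b] => [(b, z)]
  | b :: c :: W => (b, c) :: pr z (c :: W)

theorem pr_append (z : A) (W : List A) (c : A) (W' : List A) :
    pr z (W ++ c :: W') = pr c W ++ pr z (c :: W') := by
  induction W with
  | nil => simp [pr]
  | cons b W ih =>
    cases W with
    | nil => simp [pr]
    | cons b' W'' =>
      have e : b :: b' :: W'' ++ c :: W' = b :: b' :: (W'' ++ c :: W') := rfl
      rw [e]
      show (b, b') :: pr z (b' :: (W'' ++ c :: W')) = ((b, b') :: pr c (b' :: W'')) ++ pr z (c :: W')
      rw [List.cons_append]
      congr 1

theorem pr_length (z : A) (W : List A) : (pr z W).length = W.length := by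
  induction W with
  | nil => rfl
  | cons b W ih =>
    cases W with
    | nil => rfl
    | cons b' W'' =>
      show (pr z (b' :: W'')).length + 1 = (b' :: W'').length + 1
      rw [ih]

/-- The morphism on pairs. -/
def sig2 (σ : A → List A) (hσ : ∀ b, σ b ≠ []) (p : A × A) : List (A × A) :=
  pr ((σ p.2).head (hσ p.2)) (σ p.1)

theorem sig2_pr (σ : A → List A) (hσ : ∀ b, σ b ≠ []) (z : A) (W : List A) :
    sig (sig2 σ hσ) (pr z W) = pr ((σ z).head (hσ z)) (sig σ W) := by
  induction W with
  | nil => simp [sig, pr]
  | cons b W ih =>
    cases W with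
    | nil => simp [sig, pr, sig2]
    | cons c W' =>
      have e1 : sig (sig2 σ hσ) (pr z (b :: c :: W')) = sig2 σ hσ (b, c) ++ sig (sig2 σ hσ) (pr z (c :: W')) := by
        simp [sig, pr]
      have e2 : sig σ (b :: c :: W') = σ b ++ sig σ (c :: W') := by simp [sig]
      have e3 : sig σ (c :: W') = (σ c).head (hσ c) :: ((σ c).tail ++ sig σ W') := by
        have h1 := List.cons_head_tail (hσ c)
        have h2 : sig σ (c :: W') = σ c ++ sig σ W' := by simp [sig]
        rw [h2]
        conv_lhs => rw [← h1]
        rfl
      rw [e1, ih, e2, e3, pr_append]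
      rfl

theorem iter_sig2 (σ : A → List A) (hσ : ∀ b, σ b ≠ []) (k : ℕ) (z : A) (W : List A) :
    (sig (sig2 σ hσ))^[k] (pr z W) = pr ((fun b => (σ b).head (hσ b))^[k] z) ((sig σ)^[k] W) := by
  induction k with
  | zero => rfl
  | succ k ih => rw [Function.iterate_succ_apply', ih, sig2_pr, Function.iterate_succ_apply',
      Function.iterate_succ_apply']

theorem iter_head (σ : A → List A) (hσ : ∀ b, σ b ≠ []) (k : ℕ) (b : A) :
    ∃ W, (sig σ)^[k] [b] = (fun b => (σ b).head (hσ b))^[k] b :: W := by
  induction k with
  | zero => exact ⟨[], rfl⟩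
  | succ k ih =>
    obtain ⟨W, hW⟩ := ih
    rw [Function.iterate_succ_apply', Function.iterate_succ_apply', hW]
    set c := (fun b => (σ b).head (hσ b))^[k] b with hc
    refine ⟨(σ c).tail ++ sig σ W, ?_⟩
    have h2 : sig σ (c :: W) = σ c ++ sig σ W := by simp [sig]
    rw [h2]
    conv_lhs => rw [← List.cons_head_tail (hσ c)]
    rfl

open Classical in
/-- The number of the places below `N` where `w` changes. -/
noncomputable def ch (w : ℕ → Prop) (N : ℕ) : ℕ := ∑ i ∈ range N, if w i ↔ w (i + 1) then 0 else 1

open Classical in
theorem countP_pr (g : A → Prop) (z : A) (W : List A) (w : ℕ → Prop) (n : ℕ)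
    (h : ∀ i (hi : i < W.length), w (n + i) ↔ g W[i]) (hz : w (n + W.length) ↔ g z) :
    (pr z W).countP (fun p => ! decide (g p.1 ↔ g p.2)) =
      ∑ i ∈ range W.length, if w (n + i) ↔ w (n + i + 1) then 0 else 1 := by
  induction W generalizing n with
  | nil => simp [pr]
  | cons b W ih =>
    cases W with
    | nil =>
      have h0 := h 0 (by simp)
      simp only [add_zero, List.getElem_cons_zero] at h0
      simp only [List.length_cons, List.length_nil, zero_add] at hz
      simp only [pr, List.countP_cons, List.countP_nil, List.length_cons, List.length_nil, zero_add,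
        Finset.sum_range_one, add_zero]
      rw [h0, hz]
      by_cases hb : g b ↔ g z <;> simp [hb]
    | cons c W' =>
      have h0 := h 0 (by simp)
      have h1 := h 1 (by simp)
      simp only [add_zero, List.getElem_cons_zero] at h0
      simp only [List.getElem_cons_succ, List.getElem_cons_zero] at h1
      have ih' := ih (n + 1) (fun i hi => by
        have := h (i + 1) (by simpa using hi)
        rw [show n + 1 + i = n + (i + 1) by ring]
        simpa using this) (by
        rw [show n + 1 + (c :: W').length = n + (b :: c :: W').length by simp; ring]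
        exact hz)
      have e : (pr z (b :: c :: W')).countP (fun p => ! decide (g p.1 ↔ g p.2)) =
          (pr z (c :: W')).countP (fun p => ! decide (g p.1 ↔ g p.2)) +
            (if (! decide (g b ↔ g c)) = true then 1 else 0) := by
        show ((b, c) :: pr z (c :: W')).countP _ = _
        rw [List.countP_cons]
      rw [e, ih', List.length_cons (a := b), Finset.sum_range_succ']
      congr 1
      · apply Finset.sum_congr rfl
        intro i _
        rw [show n + 1 + i = n + (i + 1) by ring]
      · rw [add_zero, h0, h1]
        by_cases hb : g b ↔ g c <;> simp [hb]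

end Pool.Agent.H620.Morph
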